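import Mathlib

set_option autoImplicit false

open Set Metric Topology Filter MeasureTheory

namespace Pool.Agent.H478Z.Haar

variable {S : Type*} [MetricSpace S] [CompactSpace S]

/-- Subadditivity of the displacement of a conjugated flow. -/
theorem disp_mul (R : ℝ → S → S) (hR0 : ∀ y, R 0 y = y)
    (hadd : ∀ s t y, R (s + t) y = R s (R t y)) (γ : S → S) (t r : ℝ)
    (h : ∀ y, dist (γ (R t y)) (γ y) ≤ r) (m : ℕ) :
    ∀ y, dist (γ (R (m * t) y)) (γ y) ≤ m * r := by
  induction m with
  | zero => intro y; simp [hR0]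
  | succ m ih =>
    intro y
    have e : ((m + 1 : ℕ) : ℝ) * t = t + m * t := by push_cast; ring
    rw [e, hadd]
    have h1 := h (R (m * t) y)
    have h2 := ih y
    have h3 := dist_triangle (γ (R t (R (m * t) y))) (γ (R (m * t) y)) (γ y)
    push_cast
    linarith

/-- The parameters at which a conjugate-translate of the flow is close to a given map have small
measure, uniformly. -/
theorem small_measure (R : ℝ → C(S, S)) (hRc : Continuous R) (hR0 : ∀ y, R 0 y = y)
    (hadd : ∀ s t y, R (s + t) y = R s (R t y)) (T : ℝ) (hT : 0 ≤ T) (P : C(S, S))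
    (hP : ∀ y, ∃ θ, |θ| ≤ T ∧ P y = R θ y) (hPs : ¬ Function.Surjective P)
    (hS : ∀ f : C(S, S), (∀ x, dist (f x) x ≤ 1 / 2) → Function.Surjective f)
    (g γ : C(S, S)) (hγg : ∀ x, γ (g x) = x) (hgγ : ∀ x, g (γ x) = x) (c : C(S, S))
    (N : ℕ) (hN : 0 < N) (ε : ℝ) (hε : (N.factorial : ℝ) * (2 * ε) ≤ 1 / 2) :
    volume ({θ : ℝ | dist (γ.comp (R θ)) c < ε} ∩ Icc 0 1) ≤ ENNReal.ofReal ((1 + 2 * T) / N) := by
  set E : Set ℝ := {θ : ℝ | dist (γ.comp (R θ)) c < ε} ∩ Icc 0 1 with hE
  have hEm : MeasurableSet E := by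
    refine MeasurableSet.inter (IsOpen.measurableSet ?_) measurableSet_Icc
    exact isOpen_lt (((ContinuousMap.continuous_postcomp γ).comp hRc).dist continuous_const)
      continuous_const
  -- some time `θ` has a large displacement
  have hbig : ∃ θ, |θ| ≤ T ∧ ∃ y, 1 / 2 < dist (γ (R θ y)) (γ y) := by
    by_contra hno
    push Not at hno
    apply hPs
    have hs := hS (γ.comp (P.comp g)) (by
      intro x
      obtain ⟨θ, hθ, hx⟩ := hP (g x)
      have := hno θ hθ (g x)
      rw [hγg, ← hx] at this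
      exact this)
    intro y
    obtain ⟨x, hx⟩ := hs (γ y)
    refine ⟨g x, ?_⟩
    have := congrArg g hx
    simpa [hgγ] using this
  obtain ⟨θ, hθ, y0, hy0⟩ := hbig
  set φ : ℝ := θ / N.factorial with hφ
  have hfac : (0 : ℝ) < N.factorial := by exact_mod_cast Nat.factorial_pos N
  -- differences of points of `E`
  have hdiff : ∀ s t, s ∈ E → t ∈ E → ∀ y, dist (γ (R (s - t) y)) (γ y) ≤ 2 * ε := by
    intro s t hs ht y
    have h1 : dist (γ (R s (R (-t) y))) (c (R (-t) y)) < ε :=
      lt_of_le_of_lt (ContinuousMap.dist_apply_le_dist (f := γ.comp (R s)) (g := c) _) hs.1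
    have h2 : dist (γ (R t (R (-t) y))) (c (R (-t) y)) < ε :=
      lt_of_le_of_lt (ContinuousMap.dist_apply_le_dist (f := γ.comp (R t)) (g := c) _) ht.1
    rw [← hadd, ← sub_eq_add_neg] at h1
    rw [← hadd, add_neg_cancel, hR0] at h2
    have h3 := dist_triangle_right (γ (R (s - t) y)) (γ y) (c (R (-t) y))
    linarith
  have hsep : ∀ a : ℕ, 0 < a → a ≤ N → ∀ s t, s ∈ E → t ∈ E → s - t ≠ a * φ := by
    intro a ha haN s t hs ht hst
    have hε0 : 0 ≤ ε := (lt_of_le_of_lt dist_nonneg hs.1).le
    obtain ⟨m, hm⟩ := Nat.dvd_factorial ha haN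
    have h1 := disp_mul (fun u => R u) hR0 hadd γ (s - t) (2 * ε) (hdiff s t hs ht) m y0
    have h2 : (m : ℝ) * (s - t) = θ := by
      rw [hst, hφ, hm]
      have : (a : ℝ) ≠ 0 := by exact_mod_cast ha.ne'
      have hm0 : (m : ℝ) ≠ 0 := by
        have : m ≠ 0 := by
          rintro rfl
          exact (Nat.factorial_pos N).ne' (by simpa using hm)
        exact_mod_cast this
      push_cast
      field_simp
    rw [h2] at h1
    have h3 : (m : ℝ) ≤ N.factorial := by
      have : m ≤ N.factorial := by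
        rw [hm]; exact Nat.le_mul_of_pos_left m ha
      exact_mod_cast this
    have h4 : (m : ℝ) * (2 * ε) ≤ N.factorial * (2 * ε) :=
      mul_le_mul_of_nonneg_right h3 (by linarith)
    linarith
  -- disjoint translates
  set A : ℕ → Set ℝ := fun j => (fun x => x + j * φ) ⁻¹' E with hA
  have hAm : ∀ j, MeasurableSet (A j) := fun j => (measurable_add_const _) hEm
  have hAv : ∀ j, volume (A j) = volume E := fun j => measure_preimage_add_right volume _ E
  have hdisj : (↑(Finset.range N) : Set ℕ).PairwiseDisjoint A := by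
    have key : ∀ i j, i < j → j < N → Disjoint (A i) (A j) := by
      intro i j hij hj
      rw [Set.disjoint_left]
      intro x hi hj'
      refine hsep (j - i) (by omega) (by omega) (x + j * φ) (x + i * φ) hj' hi ?_
      rw [Nat.cast_sub hij.le]; ring
    intro i hi j hj hij
    rcases lt_or_gt_of_ne hij with h | h
    · exact key i j h (by simpa using hj)
    · exact (key j i h (by simpa using hi)).symm
  have hsub : (⋃ j ∈ Finset.range N, A j) ⊆ Icc (-T) (1 + T) := by
    intro x hx
    simp only [mem_iUnion] at hx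
    obtain ⟨j, hj, hx⟩ := hx
    have hj' : j < N := by simpa using hj
    have hx2 : x + j * φ ∈ Icc (0 : ℝ) 1 := hx.2
    have h1 : |(j : ℝ) * φ| ≤ T := by
      rw [abs_mul, hφ, abs_div, Nat.abs_cast, Nat.abs_cast]
      have h2 : (j : ℝ) ≤ N.factorial := by
        have : j ≤ N.factorial := hj'.le.trans (Nat.self_le_factorial N)
        exact_mod_cast this
      calc (j : ℝ) * (|θ| / N.factorial) ≤ N.factorial * (|θ| / N.factorial) :=
            mul_le_mul_of_nonneg_right h2 (by positivity)
        _ = |θ| := by field_simp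
        _ ≤ T := hθ
    rw [abs_le] at h1
    constructor <;> linarith [hx2.1, hx2.2, h1.1, h1.2]
  have hsum : (N : ENNReal) * volume E ≤ ENNReal.ofReal (1 + 2 * T) := by
    have h1 := measure_biUnion_finset (μ := volume) hdisj (fun j _ => hAm j)
    have h2 := measure_mono (μ := volume) hsub
    rw [h1, Real.volume_Icc] at h2
    simp only [hAv, Finset.sum_const, Finset.card_range, nsmul_eq_mul] at h2
    have e : 1 + T - -T = 1 + 2 * T := by ring
    rwa [e] at h2
  have hN' : (0 : ℝ) < N := by exact_mod_cast hN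
  rw [ENNReal.ofReal_div_of_pos hN', ENNReal.ofReal_natCast]
  rw [ENNReal.le_div_iff_mul_le (Or.inl (by exact_mod_cast hN.ne')) (Or.inl (by simp)), mul_comm]
  exact hsum

/-- The decomposition, for a set `G` of bijective continuous self-maps that contains a flow. -/
theorem decomposition [SecondCountableTopology S] (G : Set C(S, S))
    (hG : ∀ f ∈ G, Function.Bijective (f : S → S))
    (R : ℝ → C(S, S)) (hRG : ∀ θ, R θ ∈ G) (hRc : Continuous R) (hR0 : ∀ y, R 0 y = y)
    (hadd : ∀ s t y, R (s + t) y = R s (R t y)) (T : ℝ) (hT : 0 ≤ T) (P : C(S, S))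
    (hP : ∀ y, ∃ θ, |θ| ≤ T ∧ P y = R θ y) (hPs : ¬ Function.Surjective P)
    (hS : ∀ f : C(S, S), (∀ x, dist (f x) x ≤ 1 / 2) → Function.Surjective f)
    (m : MeasurableSpace G) (hm : m = borel G) :
    ∃ M N : Set G, M ∪ N = Set.univ ∧ IsMeagre M ∧
    ∃ B : Set G, N ⊆ B ∧ MeasurableSet B ∧
    ∃ μ : MeasureTheory.Measure G, MeasureTheory.IsProbabilityMeasure μ ∧
      ∀ g h : G,
        μ {x : G | ∃ b ∈ B,
          (x : C(S, S)) = (g : C(S, S)).comp ((b : C(S, S)).comp (h : C(S, S)))} = 0 := by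
  haveI : BorelSpace G := ⟨hm⟩
  haveI : Nonempty G := ⟨⟨R 0, hRG 0⟩⟩
  set d : ℕ → G := TopologicalSpace.denseSeq G with hd
  have hdd : DenseRange d := TopologicalSpace.denseRange_denseSeq G
  set ε : ℕ → ℝ := fun k => 1 / (4 * ((2 ^ k : ℕ).factorial : ℝ)) with hε
  have hεpos : ∀ k, 0 < ε k := by
    intro k
    have : (0 : ℝ) < ((2 ^ k : ℕ).factorial : ℝ) := by exact_mod_cast Nat.factorial_pos _
    simp only [hε]
    positivity
  set U : ℕ → Set G := fun j => ⋃ i, ball (d i) (ε (i + j)) with hU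
  have hUo : ∀ j, IsOpen (U j) := fun j => isOpen_iUnion fun i => isOpen_ball
  have hUd : ∀ j, Dense (U j) := by
    intro j
    refine Dense.mono ?_ hdd
    rintro _ ⟨i, rfl⟩
    exact mem_iUnion.2 ⟨i, mem_ball_self (hεpos _)⟩
  set B : Set G := ⋂ j, U j with hB
  set ρ : ℝ → G := fun θ => ⟨R θ, hRG θ⟩ with hρ
  have hρc : Continuous ρ := hRc.subtype_mk _
  have hρm : Measurable ρ := hρc.measurable
  haveI hprob : IsProbabilityMeasure (volume.restrict (Icc (0 : ℝ) 1)) := ⟨by simp⟩
  refine ⟨Bᶜ, B, compl_union_self B, ?_, B, subset_rfl,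
    MeasurableSet.iInter fun j => (hUo j).measurableSet,
    Measure.map ρ (volume.restrict (Icc 0 1)), Measure.isProbabilityMeasure_map hρm.aemeasurable,
    ?_⟩
  · rw [IsMeagre, compl_compl]
    exact countable_iInter_mem.2 fun j => residual_of_dense_open (hUo j) (hUd j)
  · intro g h
    -- the inverse of `g`
    let e : S ≃ S := Equiv.ofBijective _ (hG g g.2)
    have hec : Continuous e := (g : C(S, S)).continuous
    let eh : S ≃ₜ S := hec.homeoOfEquivCompactToT2
    let γ : C(S, S) := ⟨eh.symm, eh.symm.continuous⟩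
    have hγg : ∀ x, γ ((g : C(S, S)) x) = x := fun x => eh.symm_apply_apply x
    have hgγ : ∀ x, (g : C(S, S)) (γ x) = x := fun x => eh.apply_symm_apply x
    set W : ℕ → ℕ → Set G := fun j i =>
      {x : G | dist (γ.comp (x : C(S, S))) ((d i : C(S, S)).comp (h : C(S, S))) < ε (i + j)} with hW
    have hWo : ∀ j i, IsOpen (W j i) := by
      intro j i
      exact isOpen_lt (((ContinuousMap.continuous_postcomp γ).comp continuous_subtype_val).dist
        continuous_const) continuous_const
    have hWμ : ∀ j i, Measure.map ρ (volume.restrict (Icc 0 1)) (W j i)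
        ≤ ENNReal.ofReal ((1 + 2 * T) / (2 ^ (i + j) : ℕ)) := by
      intro j i
      rw [Measure.map_apply hρm (hWo j i).measurableSet,
        Measure.restrict_apply (hρm (hWo j i).measurableSet)]
      refine small_measure R hRc hR0 hadd T hT P hP hPs hS g γ hγg hgγ
        ((d i : C(S, S)).comp (h : C(S, S))) (2 ^ (i + j)) (by positivity) (ε (i + j)) ?_
      have : (0 : ℝ) < ((2 ^ (i + j) : ℕ).factorial : ℝ) := by exact_mod_cast Nat.factorial_pos _
      simp only [hε]
      apply le_of_eq
      field_simp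
      norm_num
    have hsub : ∀ j, {x : G | ∃ b ∈ B,
          (x : C(S, S)) = (g : C(S, S)).comp ((b : C(S, S)).comp (h : C(S, S)))} ⊆ ⋃ i, W j i := by
      rintro j x ⟨b, hb, hx⟩
      have hbj : b ∈ U j := mem_iInter.1 hb j
      obtain ⟨i, hi⟩ := mem_iUnion.1 hbj
      refine mem_iUnion.2 ⟨i, ?_⟩
      have h1 : γ.comp (x : C(S, S)) = (b : C(S, S)).comp (h : C(S, S)) := by
        ext1 y
        rw [hx]
        exact hγg _
      show dist (γ.comp (x : C(S, S))) ((d i : C(S, S)).comp (h : C(S, S))) < ε (i + j)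
      rw [h1]
      have h2 : dist (b : C(S, S)) (d i : C(S, S)) < ε (i + j) := hi
      refine lt_of_le_of_lt ?_ h2
      rw [ContinuousMap.dist_le dist_nonneg]
      intro y
      exact ContinuousMap.dist_apply_le_dist (f := (b : C(S, S))) (g := (d i : C(S, S))) _
    have hbound : ∀ j, Measure.map ρ (volume.restrict (Icc 0 1)) {x : G | ∃ b ∈ B,
          (x : C(S, S)) = (g : C(S, S)).comp ((b : C(S, S)).comp (h : C(S, S)))}
          ≤ ENNReal.ofReal ((1 + 2 * T) * 2 * (1 / 2) ^ j) := by
      intro j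
      refine (measure_mono (hsub j)).trans ((measure_iUnion_le _).trans ?_)
      refine (ENNReal.tsum_le_tsum (hWμ j)).trans ?_
      have hs : HasSum (fun i : ℕ => (1 + 2 * T) / ((2 ^ (i + j) : ℕ) : ℝ))
          ((1 + 2 * T) * 2 * (1 / 2) ^ j) := by
        have h0 := (hasSum_geometric_two).mul_left ((1 + 2 * T) * (1 / 2) ^ j)
        have e1 : (1 + 2 * T) * (1 / 2) ^ j * 2 = (1 + 2 * T) * 2 * (1 / 2) ^ j := by ring
        rw [e1] at h0
        have e2 : (fun i : ℕ => (1 + 2 * T) / ((2 ^ (i + j) : ℕ) : ℝ))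
            = fun i : ℕ => (1 + 2 * T) * (1 / 2) ^ j * (1 / 2) ^ i := by
          funext i
          push_cast
          rw [pow_add]
          simp only [one_div, inv_pow]
          field_simp
        rw [e2]
        exact h0
      rw [← ENNReal.ofReal_tsum_of_nonneg (fun i => by positivity) hs.summable, hs.tsum_eq]
    have hlim : Tendsto (fun j : ℕ => ENNReal.ofReal ((1 + 2 * T) * 2 * (1 / 2) ^ j)) atTop
        (𝓝 0) := by
      have h0 : Tendsto (fun j : ℕ => (1 + 2 * T) * 2 * (1 / 2 : ℝ) ^ j) atTop (𝓝 0) := by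
        have := (tendsto_pow_atTop_nhds_zero_of_lt_one (r := (1 / 2 : ℝ)) (by norm_num)
          (by norm_num)).const_mul ((1 + 2 * T) * 2)
        simpa using this
      simpa using ENNReal.tendsto_ofReal h0
    exact le_antisymm (ge_of_tendsto' hlim hbound) zero_le

end Pool.Agent.H478Z.Haar
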