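import Mathlib
import Pool.Agent.Helper31.GZ.Brouwer

set_option autoImplicit false

open Set Metric Topology Filter

namespace Pool.Agent.H478Z.Haar

/-- A continuous self-map of the unit sphere that moves every point by at most `1/2` is onto. -/
theorem sphere_surj {E : Type*} [NormedAddCommGroup E] [NormedSpace ℝ E] [FiniteDimensional ℝ E]
    (f : C(sphere (0 : E) 1, sphere (0 : E) 1)) (hf : ∀ x, dist (f x) x ≤ 1 / 2) :
    Function.Surjective f := by
  classical
  intro p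
  set k : E → E := fun y => if h : y ∈ sphere (0 : E) 1 then y - (f ⟨y, h⟩ : E) else 0 with hk
  have hkc : ContinuousOn k (sphere (0 : E) 1) := by
    rw [continuousOn_iff_continuous_domRestrict]
    have : (sphere (0 : E) 1).domRestrict k = fun y : sphere (0 : E) 1 => (y : E) - (f y : E) := by
      funext y
      exact dif_pos y.2
    rw [this]
    exact continuous_subtype_val.sub (continuous_subtype_val.comp f.continuous)
  have hkn : ∀ y, ‖k y‖ ≤ 1 / 2 := by
    intro y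
    by_cases h : y ∈ sphere (0 : E) 1
    · simp only [hk, dif_pos h]
      have := hf ⟨y, h⟩
      rw [Subtype.dist_eq, dist_comm, dist_eq_norm] at this
      exact this
    · simp only [hk, dif_neg h]
      norm_num
  have hn : ∀ x : E, x ≠ 0 → ‖x‖⁻¹ • x ∈ sphere (0 : E) 1 := by
    intro x hx
    rw [mem_sphere_zero_iff_norm, norm_smul, norm_inv, norm_norm,
      inv_mul_cancel₀ (norm_ne_zero_iff.2 hx)]
  set Ψ : E → E := fun y => (min ‖y‖ 2) • k (‖y‖⁻¹ • y) with hΨ
  have hΨn : ∀ y, ‖Ψ y‖ ≤ min ‖y‖ 2 * (1 / 2) := by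
    intro y
    have h0 : 0 ≤ min ‖y‖ 2 := le_min (norm_nonneg _) (by norm_num)
    simp only [hΨ]
    rw [norm_smul, Real.norm_eq_abs, abs_of_nonneg h0]
    exact mul_le_mul_of_nonneg_left (hkn _) h0
  have hΨc : Continuous Ψ := by
    rw [continuous_iff_continuousAt]
    intro x
    by_cases hx : x = 0
    · subst hx
      have h0 : Ψ 0 = 0 := by simp [hΨ]
      rw [ContinuousAt, h0]
      refine squeeze_zero_norm (a := fun y : E => ‖y‖) (fun y => ?_) ?_
      · have h1 := hΨn y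
        have h2 : min ‖y‖ 2 ≤ ‖y‖ := min_le_left _ _
        have h3 := norm_nonneg y
        linarith
      · simpa using (continuous_norm (E := E)).tendsto 0
    · have hon : ContinuousOn Ψ {y | y ≠ 0} := by
        refine ContinuousOn.smul (by fun_prop) ?_
        refine hkc.comp (f := fun y : E => ‖y‖⁻¹ • y) ?_ (fun y hy => hn y hy)
        exact (continuous_norm.continuousOn.inv₀ (fun y hy => norm_ne_zero_iff.2 hy)).smul
          continuousOn_id
      exact (hon x hx).continuousAt (isOpen_ne.mem_nhds hx)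
  have hp1 : ‖(p : E)‖ = 1 := mem_sphere_zero_iff_norm.1 p.2
  obtain ⟨y, hy⟩ := Pool.Agent.Helper31.GZ.Brouwer.brouwer (fun y => (p : E) + Ψ y)
    (continuous_const.add hΨc) 2 (by
      intro y
      have h1 := hΨn y
      have h2 : min ‖y‖ 2 ≤ 2 := min_le_right _ _
      have h3 := norm_add_le (p : E) (Ψ y)
      linarith)
  have hy2 : ‖y‖ ≤ 2 := by
    have h1 := hΨn y
    have h2 : min ‖y‖ 2 ≤ 2 := min_le_right _ _
    have h3 := norm_add_le (p : E) (Ψ y)
    rw [hy] at h3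
    linarith
  have hy0 : y ≠ 0 := by
    rintro rfl
    have h0 : Ψ 0 = 0 := by simp [hΨ]
    rw [h0, add_zero] at hy
    rw [hy, norm_zero] at hp1
    norm_num at hp1
  have hyn : ‖y‖ ≠ 0 := norm_ne_zero_iff.2 hy0
  have h1 : Ψ y = y - ‖y‖ • (f ⟨‖y‖⁻¹ • y, hn y hy0⟩ : E) := by
    simp only [hΨ, hk, dif_pos (hn y hy0), min_eq_left hy2]
    rw [smul_sub, smul_smul, mul_inv_cancel₀ hyn, one_smul]
  have h2 : (p : E) = ‖y‖ • (f ⟨‖y‖⁻¹ • y, hn y hy0⟩ : E) := by
    rw [h1] at hy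
    have : (p : E) - ‖y‖ • (f ⟨‖y‖⁻¹ • y, hn y hy0⟩ : E) = 0 := by
      have h3 : (p : E) - ‖y‖ • (f ⟨‖y‖⁻¹ • y, hn y hy0⟩ : E)
          = ((p : E) + (y - ‖y‖ • (f ⟨‖y‖⁻¹ • y, hn y hy0⟩ : E))) - y := by abel
      rw [h3, hy, sub_self]
    exact sub_eq_zero.1 this
  have h3 : ‖(f ⟨‖y‖⁻¹ • y, hn y hy0⟩ : E)‖ = 1 :=
    mem_sphere_zero_iff_norm.1 (f ⟨‖y‖⁻¹ • y, hn y hy0⟩).2
  have h4 : ‖y‖ = 1 := by
    have := congrArg norm h2
    rw [norm_smul, h3, hp1, norm_norm, mul_one] at this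
    exact this.symm
  refine ⟨⟨‖y‖⁻¹ • y, hn y hy0⟩, Subtype.ext ?_⟩
  generalize (f ⟨‖y‖⁻¹ • y, hn y hy0⟩ : E) = w at h2 ⊢
  rw [h2, h4, one_smul]

end Pool.Agent.H478Z.Haar
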