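import Mathlib
import Pool.Agent.H478Z.SphereSurj
import Pool.Agent.H478Z.Abstract

set_option autoImplicit false

open Set Metric Topology Filter MeasureTheory
open scoped RealInnerProductSpace

namespace Pool.Agent.H478Z.Haar

variable {E : Type*} [NormedAddCommGroup E] [InnerProductSpace ℝ E]

/-- Replace the components of `x` along `u` and `v` by `a` and `b`. -/
noncomputable def repl (u v x : E) (a b : ℝ) : E :=
  x + (a - ⟪u, x⟫) • u + (b - ⟪v, x⟫) • v

section
variable {u v : E} (hu : ⟪u, u⟫ = 1) (hv : ⟪v, v⟫ = 1) (huv : ⟪u, v⟫ = 0)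
include hu hv huv

theorem inner_u_repl (x : E) (a b : ℝ) : ⟪u, repl u v x a b⟫ = a := by
  simp only [repl, inner_add_right, inner_smul_right, hu, huv]
  ring

theorem inner_v_repl (x : E) (a b : ℝ) : ⟪v, repl u v x a b⟫ = b := by
  have hvu : ⟪v, u⟫ = 0 := by rw [real_inner_comm]; exact huv
  simp only [repl, inner_add_right, inner_smul_right, hv, hvu]
  ring

theorem repl_repl (x : E) (a b a' b' : ℝ) :
    repl u v (repl u v x a b) a' b' = repl u v x a' b' := by
  conv_lhs => rw [repl, inner_u_repl hu hv huv, inner_v_repl hu hv huv]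
  simp only [repl]
  module

theorem norm_repl (x : E) (a b : ℝ) (h : a ^ 2 + b ^ 2 = ⟪u, x⟫ ^ 2 + ⟪v, x⟫ ^ 2) :
    ‖repl u v x a b‖ = ‖x‖ := by
  have hvu : ⟪v, u⟫ = 0 := by rw [real_inner_comm]; exact huv
  have hxu : ⟪x, u⟫ = ⟪u, x⟫ := real_inner_comm _ _
  have hxv : ⟪x, v⟫ = ⟪v, x⟫ := real_inner_comm _ _
  have h1 : ⟪repl u v x a b, repl u v x a b⟫ = ⟪x, x⟫ := by
    simp only [repl, inner_add_right, inner_add_left, real_inner_smul_left, real_inner_smul_right,
      hu, hv, huv, hvu, hxu, hxv]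
    linear_combination h
  rw [real_inner_self_eq_norm_sq, real_inner_self_eq_norm_sq] at h1
  exact (pow_left_inj₀ (norm_nonneg _) (norm_nonneg _) two_ne_zero).1 h1

end

theorem repl_self (u v x : E) : repl u v x ⟪u, x⟫ ⟪v, x⟫ = x := by simp [repl]

/-- Rotation by the angle `θ` in the plane spanned by `u` and `v`. -/
noncomputable def rot (u v : E) (θ : ℝ) (x : E) : E :=
  repl u v x (Real.cos θ * ⟪u, x⟫ - Real.sin θ * ⟪v, x⟫) (Real.sin θ * ⟪u, x⟫ + Real.cos θ * ⟪v, x⟫)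

/-- Folding every circle orbit onto one of its points. -/
noncomputable def fold (u v : E) (x : E) : E :=
  repl u v x (Real.sqrt (⟪u, x⟫ ^ 2 + ⟪v, x⟫ ^ 2)) 0

theorem continuous_rot (u v : E) : Continuous fun p : ℝ × E => rot u v p.1 p.2 := by
  unfold rot repl
  fun_prop

theorem continuous_fold (u v : E) : Continuous (fold u v) := by
  unfold fold repl
  fun_prop

theorem rot_zero (u v x : E) : rot u v 0 x = x := by
  simp [rot, repl]

section
variable {u v : E} (hu : ⟪u, u⟫ = 1) (hv : ⟪v, v⟫ = 1) (huv : ⟪u, v⟫ = 0)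
include hu hv huv

theorem rot_add (s t : ℝ) (x : E) : rot u v (s + t) x = rot u v s (rot u v t x) := by
  conv_rhs => rw [rot, rot, repl_repl hu hv huv, inner_u_repl hu hv huv, inner_v_repl hu hv huv]
  rw [rot, Real.cos_add, Real.sin_add]
  congr 1 <;> ring

theorem norm_rot (θ : ℝ) (x : E) : ‖rot u v θ x‖ = ‖x‖ := by
  apply norm_repl hu hv huv
  have := Real.sin_sq_add_cos_sq θ
  linear_combination (⟪u, x⟫ ^ 2 + ⟪v, x⟫ ^ 2) * this

theorem norm_fold (x : E) : ‖fold u v x‖ = ‖x‖ := by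
  apply norm_repl hu hv huv
  rw [Real.sq_sqrt (by positivity)]
  ring

theorem fold_ne (x : E) : fold u v x ≠ v := by
  intro h
  have h1 := inner_v_repl hu hv huv x (Real.sqrt (⟪u, x⟫ ^ 2 + ⟪v, x⟫ ^ 2)) 0
  change ⟪v, fold u v x⟫ = 0 at h1
  rw [h, hv] at h1
  norm_num at h1

end

theorem fold_eq_rot (u v x : E) : ∃ θ : ℝ, |θ| ≤ Real.pi ∧ fold u v x = rot u v θ x := by
  set z : ℂ := ⟨⟪u, x⟫, ⟪v, x⟫⟩ with hz
  have hn : ‖z‖ = Real.sqrt (⟪u, x⟫ ^ 2 + ⟪v, x⟫ ^ 2) := by
    rw [Complex.norm_eq_sqrt_sq_add_sq]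
  have h1 : ‖z‖ * Real.cos z.arg = ⟪u, x⟫ := Complex.norm_mul_cos_arg z
  have h2 : ‖z‖ * Real.sin z.arg = ⟪v, x⟫ := Complex.norm_mul_sin_arg z
  refine ⟨-z.arg, by rw [abs_neg]; exact Complex.abs_arg_le_pi z, ?_⟩
  rw [fold, rot, Real.cos_neg, Real.sin_neg, ← hn]
  have h3 := Real.sin_sq_add_cos_sq z.arg
  congr 1
  · rw [← h1, ← h2]
    linear_combination (-‖z‖) * h3
  · rw [← h1, ← h2]
    ring

theorem sphere_decomposition [FiniteDimensional ℝ E] {u v : E} (hu : ⟪u, u⟫ = 1)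
    (hv : ⟪v, v⟫ = 1) (huv : ⟪u, v⟫ = 0)
    (G : Set C(sphere (0 : E) 1, sphere (0 : E) 1))
    (hG : G = {f : C(sphere (0 : E) 1, sphere (0 : E) 1) |
      Function.Bijective (f : sphere (0 : E) 1 → sphere (0 : E) 1) ∧
          ContinuousMap.Homotopic f (ContinuousMap.id (↥(sphere (0 : E) 1)))})
    (m : MeasurableSpace G) (hm : m = borel G) :
    ∃ M N : Set G, M ∪ N = Set.univ ∧ IsMeagre M ∧
    ∃ B : Set G, N ⊆ B ∧ MeasurableSet B ∧
    ∃ μ : MeasureTheory.Measure G, MeasureTheory.IsProbabilityMeasure μ ∧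
      ∀ g h : G,
        μ {x : G | ∃ b ∈ B,
          (x : C(sphere (0 : E) 1, sphere (0 : E) 1)) =
            (g : C(sphere (0 : E) 1, sphere (0 : E) 1)).comp
              ((b : C(sphere (0 : E) 1, sphere (0 : E) 1)).comp
                (h : C(sphere (0 : E) 1, sphere (0 : E) 1)))} = 0 := by
  haveI : ProperSpace E := FiniteDimensional.proper_real E
  have hmem : ∀ (θ : ℝ) (x : sphere (0 : E) 1), rot u v θ x ∈ sphere (0 : E) 1 := by
    intro θ x
    rw [mem_sphere_zero_iff_norm, norm_rot hu hv huv]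
    exact mem_sphere_zero_iff_norm.1 x.2
  let F : C(ℝ × sphere (0 : E) 1, sphere (0 : E) 1) :=
    ⟨fun p => ⟨rot u v p.1 p.2, hmem p.1 p.2⟩,
      Continuous.subtype_mk ((continuous_rot u v).comp
        (continuous_fst.prodMk (continuous_subtype_val.comp continuous_snd))) _⟩
  let R : ℝ → C(sphere (0 : E) 1, sphere (0 : E) 1) := F.curry
  have hR0 : ∀ y, R 0 y = y := fun y => Subtype.ext (rot_zero u v y)
  have hadd : ∀ s t y, R (s + t) y = R s (R t y) := fun s t y =>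
    Subtype.ext (rot_add hu hv huv s t y)
  have hmem' : ∀ x : sphere (0 : E) 1, fold u v x ∈ sphere (0 : E) 1 := by
    intro x
    rw [mem_sphere_zero_iff_norm, norm_fold hu hv huv]
    exact mem_sphere_zero_iff_norm.1 x.2
  let P : C(sphere (0 : E) 1, sphere (0 : E) 1) :=
    ⟨fun x => ⟨fold u v x, hmem' x⟩,
      Continuous.subtype_mk ((continuous_fold u v).comp continuous_subtype_val) hmem'⟩
  refine decomposition G (fun f hf => (hG ▸ hf).1) R ?_ F.curry.continuous hR0 hadd Real.pi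
    Real.pi_pos.le P ?_ ?_ (fun f hf => sphere_surj f hf) m hm
  · intro θ
    rw [hG]
    refine ⟨Function.bijective_iff_has_inverse.2 ⟨R (-θ), fun y => ?_, fun y => ?_⟩, ⟨?_⟩⟩
    · rw [← hadd, neg_add_cancel, hR0]
    · rw [← hadd, add_neg_cancel, hR0]
    · refine ⟨⟨fun p => F ((1 - (p.1 : ℝ)) * θ, p.2), by fun_prop⟩, fun x => ?_, fun x => ?_⟩
      · show F ((1 - ((0 : unitInterval) : ℝ)) * θ, x) = F (θ, x)
        simp
      · show F ((1 - ((1 : unitInterval) : ℝ)) * θ, x) = x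
        have : (1 - ((1 : unitInterval) : ℝ)) * θ = 0 := by simp
        rw [this]
        exact hR0 x
  · intro y
    obtain ⟨θ, h1, h2⟩ := fold_eq_rot u v (y : E)
    exact ⟨θ, h1, Subtype.ext h2⟩
  · intro hs
    have hv1 : v ∈ sphere (0 : E) 1 := by
      rw [mem_sphere_zero_iff_norm]
      rw [real_inner_self_eq_norm_sq] at hv
      exact (pow_left_inj₀ (norm_nonneg _) zero_le_one two_ne_zero).1 (by rw [hv, one_pow])
    obtain ⟨x, hx⟩ := hs ⟨v, hv1⟩
    exact fold_ne hu hv huv x (congrArg Subtype.val hx)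

end Pool.Agent.H478Z.Haar
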